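import Mathlib

/-!
For every integer `k ≥ 3` (in particular for every `k ≥ 4`) there is a graph `G` with
DP-chromatic number `k` which is not partially DP-nice: `G = 2K₁ ∨ (K_{k-2} ∪ K_{k-1})`.
-/

namespace Pool.Agent.Results.MP_a5c736_co.NotPartiallyDPNice

/-- A cover `(L, H)` of the graph `G`, with `V(H) = W`. -/
structure Cover {V : Type} (G : SimpleGraph V) (W : Type) where
  /-- the cover graph -/
  H : SimpleGraph W
  /-- the parts -/
  L : V → Set W
  /-- (1) the parts cover `V(H)` -/
  covers : ∀ w, ∃ u, w ∈ L u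
  /-- (1) the parts are pairwise disjoint -/
  disj : ∀ u v, u ≠ v → Disjoint (L u) (L v)
  /-- (2) every part induces a complete graph -/
  clique : ∀ u, ∀ x ∈ L u, ∀ y ∈ L u, x ≠ y → H.Adj x y
  /-- (3) between the parts of adjacent vertices the edges form a matching -/
  matching : ∀ u v, G.Adj u v → ∀ x ∈ L u, ∀ y ∈ L v, ∀ z ∈ L v, H.Adj x y → H.Adj x z → y = z
  /-- (4) no edges between the parts of distinct non-adjacent vertices -/
  nonadj : ∀ u v, u ≠ v → ¬ G.Adj u v → ∀ x ∈ L u, ∀ y ∈ L v, ¬ H.Adj x y

/-- The cover is an `m`-fold cover: all parts have `m` elements. -/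
def Cover.IsFold {V W : Type} {G : SimpleGraph V} (C : Cover G W) (m : ℕ) : Prop :=
  ∀ u, (C.L u).ncard = m

/-- The graph `G` has a coloring from the cover: an independent set of `H` of size `|V(G)|`. -/
def Cover.Colorable {V W : Type} [Fintype V] {G : SimpleGraph V} (C : Cover G W) : Prop :=
  ∃ s : Finset W, C.H.IsIndepSet (s : Set W) ∧ s.card = Fintype.card V

/-- The DP-chromatic number. -/
noncomputable def chiDP {V : Type} [Fintype V] (G : SimpleGraph V) : ℕ :=
  sInf {m : ℕ | ∀ (W : Type) [Fintype W] (C : Cover G W), C.IsFold m → C.Colorable}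

/-- The partial DP `t`-number: the minimum of `α(H)` over the `t`-fold covers `(L,H)` of `G`. -/
noncomputable def alphaDP {V : Type} (G : SimpleGraph V) (t : ℕ) : ℕ :=
  sInf {a : ℕ | ∃ (W : Type) (_ : Fintype W) (C : Cover G W), C.IsFold t ∧ a = C.H.indepNum}

/-- `G` is partially DP-nice: `α_t^{DP}(G) ≥ t |V(G)| / χ_{DP}(G)` for all `t ∈ [χ_{DP}(G)]`. -/
def PartiallyDPNice {V : Type} [Fintype V] (G : SimpleGraph V) : Prop :=
  ∀ t : ℕ, 1 ≤ t → t ≤ chiDP G →
    (t : ℚ) * (Fintype.card V : ℚ) / (chiDP G : ℚ) ≤ (alphaDP G t : ℚ)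

/-! ### Greedy colouring -/

open Classical in
/-- extension of partial colourings along a degenerate ordering -/
lemma greedy {V W : Type} [Fintype V] [Fintype W] {G : SimpleGraph V} (C : Cover G W) {k : ℕ}
    (hC : C.IsFold k)
    (hdeg : ∀ S : Finset V, S.Nonempty → ∃ v ∈ S, (S.filter (fun u => G.Adj u v)).card < k)
    (S : Finset V) : ∃ f : V → W, (∀ v ∈ S, f v ∈ C.L v) ∧
      ∀ u ∈ S, ∀ v ∈ S, u ≠ v → ¬ C.H.Adj (f u) (f v) := by
  induction S using Finset.strongInduction with
  | H S ih =>
    rcases S.eq_empty_or_nonempty with h | h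
    · subst h
      by_cases hW : Nonempty W
      · exact ⟨fun _ => Classical.choice hW, by simp, by simp⟩
      · have hk : k = 0 ∨ IsEmpty V := by
          by_cases hV : Nonempty V
          · left
            have := hC (Classical.choice hV)
            rw [← this]
            have : C.L (Classical.choice hV) = ∅ := by
              ext w; exact absurd ⟨w⟩ hW
            rw [this]; simp
          · right; exact not_nonempty_iff.mp hV
        rcases hk with hk | hk
        · by_cases hV : Nonempty V
          · obtain ⟨v, _, hv⟩ := hdeg {Classical.choice hV} ⟨_, Finset.mem_singleton_self _⟩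
            omega
          · have : IsEmpty V := not_nonempty_iff.mp hV
            exact ⟨fun v => this.elim v, by simp, by simp⟩
        · exact ⟨fun v => hk.elim v, by simp, by simp⟩
    · obtain ⟨v, hvS, hv⟩ := hdeg S h
      obtain ⟨f, hf1, hf2⟩ := ih (S.erase v) (Finset.erase_ssubset hvS)
      -- the set of bad labels
      set N := S.filter (fun u => G.Adj u v) with hN
      let B : Set W := ⋃ u ∈ N, {w | w ∈ C.L v ∧ C.H.Adj (f u) w}
      have hB : B.ncard ≤ N.card := by
        have h1 : ∀ u ∈ N, ({w | w ∈ C.L v ∧ C.H.Adj (f u) w} : Set W).ncard ≤ 1 := by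
          intro u hu
          have huS : u ∈ S ∧ G.Adj u v := by simpa [hN] using hu
          have hne : u ≠ v := huS.2.ne
          rw [Set.ncard_le_one_iff]
          intro x y hx hy
          exact C.matching u v huS.2 (f u) (hf1 u (Finset.mem_erase.mpr ⟨hne, huS.1⟩)) x hx.1 y hy.1
            hx.2 hy.2
        have h2 : ∀ T : Finset V, T ⊆ N →
            (⋃ u ∈ T, {w | w ∈ C.L v ∧ C.H.Adj (f u) w} : Set W).ncard ≤ T.card := by
          intro T
          induction T using Finset.induction with
          | empty => intro _; simp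
          | insert a T ha ihT =>
            intro hT
            rw [Finset.set_biUnion_insert, Finset.card_insert_of_notMem ha]
            refine (Set.ncard_union_le _ _).trans ?_
            have := h1 a (hT (Finset.mem_insert_self _ _))
            have := ihT (fun x hx => hT (Finset.mem_insert_of_mem hx))
            omega
        exact h2 N (Finset.Subset.refl _)
      have hex : ∃ w ∈ C.L v, w ∉ B := by
        by_contra hcon
        push Not at hcon
        have : (C.L v).ncard ≤ B.ncard := Set.ncard_le_ncard hcon (Set.toFinite _)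
        rw [hC v] at this
        omega
      obtain ⟨w, hw, hwB⟩ := hex
      have hwN : ∀ u ∈ S, u ≠ v → ¬ C.H.Adj (f u) w := by
        intro u hu hne hadj
        by_cases hG : G.Adj u v
        · apply hwB
          simp only [B, Set.mem_iUnion]
          exact ⟨u, by simp [hN, hu, hG], hw, hadj⟩
        · exact C.nonadj u v hne hG (f u) (hf1 u (Finset.mem_erase.mpr ⟨hne, hu⟩)) w hw hadj
      refine ⟨Function.update f v w, ?_, ?_⟩
      · intro u hu
        by_cases hne : u = v
        · subst hne; simpa using hw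
        · rw [Function.update_of_ne hne]; exact hf1 u (Finset.mem_erase.mpr ⟨hne, hu⟩)
      · intro u hu u' hu' hne
        by_cases h1 : u = v
        · subst h1
          rw [Function.update_self, Function.update_of_ne (Ne.symm hne)]
          intro h; exact hwN u' hu' (Ne.symm hne) h.symm
        · by_cases h2 : u' = v
          · subst h2
            rw [Function.update_self, Function.update_of_ne h1]
            exact hwN u hu h1
          · rw [Function.update_of_ne h1, Function.update_of_ne h2]
            exact hf2 u (Finset.mem_erase.mpr ⟨h1, hu⟩) u' (Finset.mem_erase.mpr ⟨h2, hu'⟩) hne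

open Classical in
lemma colorable_of_degenerate {V W : Type} [Fintype V] [Fintype W] {G : SimpleGraph V}
    (C : Cover G W) {k : ℕ} (hC : C.IsFold k)
    (hdeg : ∀ S : Finset V, S.Nonempty → ∃ v ∈ S, (S.filter (fun u => G.Adj u v)).card < k) :
    C.Colorable := by
  obtain ⟨f, hf1, hf2⟩ := greedy C hC hdeg Finset.univ
  have hinj : Function.Injective f := by
    intro u v huv
    by_contra hne
    have h1 := hf1 u (Finset.mem_univ _)
    have h2 := hf1 v (Finset.mem_univ _)
    rw [huv] at h1
    exact Set.disjoint_left.mp (C.disj u v hne) h1 h2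
  refine ⟨Finset.univ.image f, ?_, ?_⟩
  · intro x hx y hy hxy
    simp only [Finset.coe_image, Finset.coe_univ, Set.image_univ, Set.mem_range] at hx hy
    obtain ⟨u, rfl⟩ := hx
    obtain ⟨v, rfl⟩ := hy
    exact hf2 u (Finset.mem_univ _) v (Finset.mem_univ _) (fun h => hxy (by rw [h]))
  · rw [Finset.card_image_of_injective _ hinj]; rfl

/-! ### Covers given by permutations -/

/-- The `t`-fold cover of `G` given by permutations `σ u v` of the labels. -/
def permCover {V : Type} (G : SimpleGraph V) (t : ℕ) (σ : V → V → Equiv.Perm (Fin t))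
    (hσ : ∀ u v, σ v u = (σ u v)⁻¹) : Cover G (V × Fin t) where
  H :=
    { Adj := fun x y => (x.1 = y.1 ∧ x.2 ≠ y.2) ∨ (G.Adj x.1 y.1 ∧ σ x.1 y.1 x.2 = y.2)
      symm := by
        constructor
        rintro ⟨u, i⟩ ⟨v, j⟩ (h | h)
        · left; exact ⟨h.1.symm, h.2.symm⟩
        · right
          refine ⟨h.1.symm, ?_⟩
          simp only at h ⊢
          rw [hσ u v, ← h.2]; simp
      loopless := by
        constructor
        rintro ⟨u, i⟩ (h | h)
        · exact h.2 rfl
        · exact h.1.ne rfl }
  L := fun v => {x | x.1 = v}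
  covers := fun w => ⟨w.1, rfl⟩
  disj := by
    intro u v huv
    rw [Set.disjoint_left]
    intro x hx hy
    exact huv (hx.symm.trans hy)
  clique := by
    rintro u ⟨x, i⟩ hx ⟨y, j⟩ hy hxy
    left
    have hx' : x = u := hx
    have hy' : y = u := hy
    subst hx' hy'
    exact ⟨rfl, fun h => hxy (by simp only at h; rw [h])⟩
  matching := by
    rintro u v huv ⟨x, i⟩ hx ⟨y, j⟩ hy ⟨z, l⟩ hz h1 h2
    have hx' : x = u := hx
    have hy' : y = v := hy
    have hz' : z = v := hz
    subst hx' hy' hz'
    rcases h1 with h1 | h1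
    · exact absurd h1.1 huv.ne
    · rcases h2 with h2 | h2
      · exact absurd h2.1 huv.ne
      · have := h1.2.symm.trans h2.2
        simp only at this
        rw [this]
  nonadj := by
    rintro u v huv hG ⟨x, i⟩ hx ⟨y, j⟩ hy h
    have hx' : x = u := hx
    have hy' : y = v := hy
    subst hx' hy'
    rcases h with h | h
    · exact huv h.1
    · exact hG h.1

lemma permCover_isFold {V : Type} (G : SimpleGraph V) (t : ℕ) (σ : V → V → Equiv.Perm (Fin t))
    (hσ : ∀ u v, σ v u = (σ u v)⁻¹) : (permCover G t σ hσ).IsFold t := by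
  intro u
  have : (permCover G t σ hσ).L u = (fun i : Fin t => (u, i)) '' Set.univ := by
    ext ⟨x, i⟩
    simp only [permCover, Set.mem_ofPred_eq, Set.mem_image, Set.mem_univ, true_and, Prod.mk.injEq]
    constructor
    · rintro rfl; exact ⟨i, rfl, rfl⟩
    · rintro ⟨_, h, _⟩; exact h.symm
  rw [this, Set.ncard_image_of_injective _ (fun a b h => by simpa using h)]
  simp

lemma perm_indep {V : Type} {G : SimpleGraph V} {t : ℕ} {σ : V → V → Equiv.Perm (Fin t)}
    {hσ : ∀ u v, σ v u = (σ u v)⁻¹} {s : Finset (V × Fin t)}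
    (hs : (permCover G t σ hσ).H.IsIndepSet (s : Set (V × Fin t))) :
    (∀ x ∈ s, ∀ y ∈ s, x.1 = y.1 → x = y) ∧
    (∀ x ∈ s, ∀ y ∈ s, G.Adj x.1 y.1 → σ x.1 y.1 x.2 ≠ y.2) := by
  constructor
  · intro x hx y hy hxy
    by_contra hne
    refine hs (Finset.mem_coe.mpr hx) (Finset.mem_coe.mpr hy) hne (Or.inl ⟨hxy, fun h => hne ?_⟩)
    exact Prod.ext hxy h
  · intro x hx y hy hxy h
    have hne : x ≠ y := by rintro rfl; exact hxy.ne rfl
    exact hs (Finset.mem_coe.mpr hx) (Finset.mem_coe.mpr hy) hne (Or.inr ⟨hxy, h⟩)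

/-! ### The graph -/

/-- vertices: `a`, `b` (`inl`), a clique `Q₁` with `m` vertices, a clique `Q₂` with `m+1`
vertices -/
abbrev Vt (m : ℕ) : Type := Bool ⊕ (Fin m ⊕ Fin (m + 1))

/-- `G = 2K₁ ∨ (K_m ∪ K_{m+1})`. -/
def Gr (m : ℕ) : SimpleGraph (Vt m) where
  Adj
    | .inl _, .inl _ => False
    | .inl _, .inr _ => True
    | .inr _, .inl _ => True
    | .inr (.inl i), .inr (.inl j) => i ≠ j
    | .inr (.inr i), .inr (.inr j) => i ≠ j
    | .inr (.inl _), .inr (.inr _) => False
    | .inr (.inr _), .inr (.inl _) => False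
  symm := by
    constructor
    rintro (a | i | i) (b | j | j) h <;> first | exact h | exact h.symm
  loopless := by
    constructor
    rintro (a | i | i) h
    · exact h
    · exact h rfl
    · exact h rfl

lemma card_Vt (m : ℕ) : Fintype.card (Vt m) = 2 * m + 3 := by
  simp [Vt]; omega

open Classical in
lemma degenerate (m : ℕ) (S : Finset (Vt m)) (hS : S.Nonempty) :
    ∃ v ∈ S, (S.filter (fun u => (Gr m).Adj u v)).card < m + 2 := by
  by_cases h1 : ∃ i : Fin m, (Sum.inr (Sum.inl i) : Vt m) ∈ S
  · obtain ⟨i, hi⟩ := h1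
    refine ⟨_, hi, ?_⟩
    have hsub : S.filter (fun u => (Gr m).Adj u (Sum.inr (Sum.inl i))) ⊆
        (Finset.univ.image (fun b : Bool => (Sum.inl b : Vt m))) ∪
        ((Finset.univ.erase i).image (fun j : Fin m => (Sum.inr (Sum.inl j) : Vt m))) := by
      rintro (b | j | j) hj
      · simp
      · have : j ≠ i := (Finset.mem_filter.mp hj).2
        simp [this]
      · exact absurd (Finset.mem_filter.mp hj).2 (fun h => h)
    refine lt_of_le_of_lt (Finset.card_le_card hsub) ?_
    refine lt_of_le_of_lt (Finset.card_union_le _ _) ?_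
    have h2 : (Finset.univ.image (fun b : Bool => (Sum.inl b : Vt m))).card ≤ 2 :=
      Finset.card_image_le.trans (by simp)
    have h3 : ((Finset.univ.erase i).image
        (fun j : Fin m => (Sum.inr (Sum.inl j) : Vt m))).card ≤ m - 1 :=
      Finset.card_image_le.trans (by simp)
    have := i.2
    omega
  · push Not at h1
    obtain ⟨v, hv⟩ := hS
    -- all neighbours outside `{a,b}` lie in `Q₂`
    by_cases h2 : ∃ b : Bool, (Sum.inl b : Vt m) ∈ S
    · obtain ⟨b, hb⟩ := h2
      refine ⟨_, hb, ?_⟩
      have hsub : S.filter (fun u => (Gr m).Adj u (Sum.inl b)) ⊆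
          (Finset.univ.image (fun j : Fin (m + 1) => (Sum.inr (Sum.inr j) : Vt m))) := by
        rintro (c | j | j) hj
        · exact absurd (Finset.mem_filter.mp hj).2 (fun h => h)
        · exact absurd (Finset.mem_filter.mp hj).1 (h1 j)
        · simp
      refine lt_of_le_of_lt (Finset.card_le_card hsub) ?_
      refine lt_of_le_of_lt Finset.card_image_le ?_
      simp
    · push Not at h2
      refine ⟨v, hv, ?_⟩
      have hsub : S.filter (fun u => (Gr m).Adj u v) ⊆
          (Finset.univ.image (fun j : Fin (m + 1) => (Sum.inr (Sum.inr j) : Vt m))) := by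
        rintro (c | j | j) hj
        · exact absurd (Finset.mem_filter.mp hj).1 (h2 c)
        · exact absurd (Finset.mem_filter.mp hj).1 (h1 j)
        · simp
      refine lt_of_le_of_lt (Finset.card_le_card hsub) ?_
      refine lt_of_le_of_lt Finset.card_image_le ?_
      simp

/-- The DP-chromatic number of the graph is `m + 2`. -/
lemma chiDP_Gr (m : ℕ) : chiDP (Gr m) = m + 2 := by
  classical
  apply le_antisymm
  · apply Nat.sInf_le
    intro W _ C hC
    apply colorable_of_degenerate C hC
    intro S hS
    obtain ⟨v, hv, h⟩ := degenerate m S hS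
    exact ⟨v, hv, by convert h⟩
  · apply le_csInf
    · refine ⟨m + 2, ?_⟩
      intro W _ C hC
      apply colorable_of_degenerate C hC
      intro S hS
      obtain ⟨v, hv, h⟩ := degenerate m S hS
      exact ⟨v, hv, by convert h⟩
    · intro t ht
      by_contra hlt
      push Not at hlt
      obtain ⟨s, hs, hcard⟩ := ht (Vt m × Fin t) (permCover (Gr m) t (fun _ _ => 1) (by simp))
        (permCover_isFold _ _ _ _)
      obtain ⟨hs1, hs2⟩ := perm_indep hs
      -- every vertex is coloured
      have hinj : Set.InjOn Prod.fst (s : Set (Vt m × Fin t)) := by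
        intro x hx y hy h
        exact hs1 x (Finset.mem_coe.mp hx) y (Finset.mem_coe.mp hy) h
      have himg : s.image Prod.fst = Finset.univ := by
        apply Finset.eq_univ_of_card
        rw [Finset.card_image_of_injOn hinj, hcard]
      have hall : ∀ v : Vt m, ∃ i : Fin t, (v, i) ∈ s := by
        intro v
        have : v ∈ s.image Prod.fst := by rw [himg]; exact Finset.mem_univ _
        obtain ⟨⟨x, i⟩, hx, rfl⟩ := Finset.mem_image.mp this
        exact ⟨i, hx⟩
      choose c hc using hall
      let g : Option (Fin (m + 1)) → Fin t := fun o =>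
        match o with
        | none => c (Sum.inl false)
        | some j => c (Sum.inr (Sum.inr j))
      have hg : Function.Injective g := by
        intro o o' h
        rcases o with _ | j <;> rcases o' with _ | j'
        · rfl
        · exact absurd h (hs2 _ (hc _) _ (hc _) (by trivial))
        · exact absurd h (hs2 _ (hc (Sum.inr (Sum.inr j))) _ (hc (Sum.inl false)) (by trivial))
        · by_contra hne
          have hne' : j ≠ j' := fun h => hne (by rw [h])
          exact absurd h (hs2 _ (hc (Sum.inr (Sum.inr j))) _ (hc (Sum.inr (Sum.inr j'))) hne')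
      have := Fintype.card_le_of_injective g hg
      simp at this
      omega

/-- the twist: `b` against `Q₂` by the rotation `i ↦ i + 1` -/
def tw (m : ℕ) : Vt m → Vt m → Equiv.Perm (Fin (m + 1))
  | .inl true, .inr (.inr _) => Equiv.addRight 1
  | .inr (.inr _), .inl true => (Equiv.addRight 1)⁻¹
  | _, _ => 1

lemma tw_symm (m : ℕ) (u v : Vt m) : tw m v u = (tw m u v)⁻¹ := by
  rcases u with (b | i | i) <;> rcases v with (c | j | j) <;>
    first
    | (cases b <;> cases c <;> simp [tw])
    | (cases b <;> simp [tw])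
    | (cases c <;> simp [tw])
    | simp [tw]

/-- Any partial colouring of the twisted `(m+1)`-fold cover misses at least two vertices. -/
lemma twisted_bound (m : ℕ) (hm : 1 ≤ m) (s : Finset (Vt m × Fin (m + 1)))
    (hs : (permCover (Gr m) (m + 1) (tw m) (tw_symm m)).H.IsIndepSet
      (s : Set (Vt m × Fin (m + 1)))) : s.card ≤ 2 * m + 1 := by
  classical
  obtain ⟨hs1, hs2⟩ := perm_indep hs
  by_contra hcard
  push Not at hcard
  have hinj : Set.InjOn Prod.fst (s : Set (Vt m × Fin (m + 1))) := by
    intro x hx y hy h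
    exact hs1 x (Finset.mem_coe.mp hx) y (Finset.mem_coe.mp hy) h
  set U := s.image Prod.fst with hU
  have hUc : U.card = s.card := Finset.card_image_of_injOn hinj
  have hcompl : Uᶜ.card ≤ 1 := by
    rw [Finset.card_compl, card_Vt]; omega
  have hex : ∀ v : Vt m, ∃ i : Fin (m + 1), v ∈ U → (v, i) ∈ s := by
    intro v
    by_cases hv : v ∈ U
    · obtain ⟨⟨x, i⟩, hx, rfl⟩ := Finset.mem_image.mp hv
      exact ⟨i, fun _ => hx⟩
    · exact ⟨0, fun h => absurd h hv⟩
  choose c hc using hex
  have hadj : ∀ u v, u ∈ U → v ∈ U → (Gr m).Adj u v → tw m u v (c u) ≠ c v := by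
    intro u v hu hv h
    exact hs2 _ (hc u hu) _ (hc v hv) h
  let a : Vt m := Sum.inl false
  let b : Vt m := Sum.inl true
  let q1 : Fin m → Vt m := fun i => Sum.inr (Sum.inl i)
  let q2 : Fin (m + 1) → Vt m := fun i => Sum.inr (Sum.inr i)
  have haq2 : ∀ j, a ∈ U → q2 j ∈ U → c a ≠ c (q2 j) := by
    intro j h1 h2
    have := hadj a (q2 j) h1 h2 trivial
    simpa [a, q2, tw] using this
  have hbq2 : ∀ j, b ∈ U → q2 j ∈ U → c b + 1 ≠ c (q2 j) := by
    intro j h1 h2
    have := hadj b (q2 j) h1 h2 trivial
    simpa [b, q2, tw] using this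
  have hqq2 : ∀ j j', j ≠ j' → q2 j ∈ U → q2 j' ∈ U → c (q2 j) ≠ c (q2 j') := by
    intro j j' hne h1 h2
    have := hadj (q2 j) (q2 j') h1 h2 hne
    simpa [q2, tw] using this
  have haq1 : ∀ j, a ∈ U → q1 j ∈ U → c a ≠ c (q1 j) := by
    intro j h1 h2
    have := hadj a (q1 j) h1 h2 trivial
    simpa [a, q1, tw] using this
  have hbq1 : ∀ j, b ∈ U → q1 j ∈ U → c b ≠ c (q1 j) := by
    intro j h1 h2
    have := hadj b (q1 j) h1 h2 trivial
    simpa [b, q1, tw] using this
  have hqq1 : ∀ j j', j ≠ j' → q1 j ∈ U → q1 j' ∈ U → c (q1 j) ≠ c (q1 j') := by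
    intro j j' hne h1 h2
    have := hadj (q1 j) (q1 j') h1 h2 hne
    simpa [q1, tw] using this
  -- a missing vertex in `Q₂ ∪ {a}`
  have hmiss1 : ∃ x, x ∉ U ∧ (x = a ∨ ∃ j, x = q2 j) := by
    by_contra hcon
    push Not at hcon
    have haU : a ∈ U := by
      by_contra h; exact (hcon a h).1 rfl
    have hqU : ∀ j, q2 j ∈ U := by
      intro j; by_contra h; exact (hcon _ h).2 j rfl
    let g : Option (Fin (m + 1)) → Fin (m + 1) := fun o =>
      match o with
      | none => c a
      | some j => c (q2 j)
    have hg : Function.Injective g := by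
      intro o o' h
      rcases o with _ | j <;> rcases o' with _ | j'
      · rfl
      · exact absurd h (haq2 j' haU (hqU j'))
      · exact absurd h.symm (haq2 j haU (hqU j))
      · by_contra hne
        have hne' : j ≠ j' := fun h => hne (by rw [h])
        exact hqq2 j j' hne' (hqU j) (hqU j') h
    have := Fintype.card_le_of_injective g hg
    simp at this
  have hmiss2 : ∃ x, x ∉ U ∧ (x = b ∨ ∃ j, x = q2 j) := by
    by_contra hcon
    push Not at hcon
    have hbU : b ∈ U := by
      by_contra h; exact (hcon b h).1 rfl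
    have hqU : ∀ j, q2 j ∈ U := by
      intro j; by_contra h; exact (hcon _ h).2 j rfl
    let g : Option (Fin (m + 1)) → Fin (m + 1) := fun o =>
      match o with
      | none => c b + 1
      | some j => c (q2 j)
    have hg : Function.Injective g := by
      intro o o' h
      rcases o with _ | j <;> rcases o' with _ | j'
      · rfl
      · exact absurd h (hbq2 j' hbU (hqU j'))
      · exact absurd h.symm (hbq2 j hbU (hqU j))
      · by_contra hne
        have hne' : j ≠ j' := fun h => hne (by rw [h])
        exact hqq2 j j' hne' (hqU j) (hqU j') h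
    have := Fintype.card_le_of_injective g hg
    simp at this
  obtain ⟨x, hxU, hx⟩ := hmiss1
  obtain ⟨y, hyU, hy⟩ := hmiss2
  have huniq : ∀ z w, z ∉ U → w ∉ U → z = w := by
    intro z w hz hw
    exact Finset.card_le_one.mp hcompl z (Finset.mem_compl.mpr hz) w (Finset.mem_compl.mpr hw)
  have hxy : x = y := huniq x y hxU hyU
  subst hxy
  have hq0 : ∃ q0, x = q2 q0 := by
    rcases hx with hx | hx
    · rcases hy with hy | hy
      · rw [hx] at hy; simp [a, b] at hy
      · exact hy
    · exact hx
  obtain ⟨q0, hq0⟩ := hq0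
  have hrest : ∀ z, z ≠ x → z ∈ U := by
    intro z hz; by_contra h; exact hz (huniq z x h hxU)
  have haU : a ∈ U := hrest a (by rw [hq0]; simp [a, q2])
  have hbU : b ∈ U := hrest b (by rw [hq0]; simp [b, q2])
  have hq1U : ∀ j, q1 j ∈ U := fun j => hrest _ (by rw [hq0]; simp [q1, q2])
  have hq2U : ∀ j, j ≠ q0 → q2 j ∈ U := fun j hj => hrest _ (by rw [hq0]; simp [q2, hj])
  -- `Q₁` forces equal labels of `a` and `b`
  have hab : c b = c a := by
    let g : Option (Fin m) → Fin (m + 1) := fun o =>
      match o with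
      | none => c a
      | some j => c (q1 j)
    have hg : Function.Injective g := by
      intro o o' h
      rcases o with _ | j <;> rcases o' with _ | j'
      · rfl
      · exact absurd h (haq1 j' haU (hq1U j'))
      · exact absurd h.symm (haq1 j haU (hq1U j))
      · by_contra hne
        have hne' : j ≠ j' := fun h => hne (by rw [h])
        exact hqq1 j j' hne' (hq1U j) (hq1U j') h
    have hsurj : Function.Surjective g := by
      have hbij := (Fintype.bijective_iff_injective_and_card g).mpr ⟨hg, by simp⟩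
      exact hbij.2
    obtain ⟨o, ho⟩ := hsurj (c b)
    rcases o with _ | j
    · exact ho.symm
    · exact absurd ho.symm (hbq1 j hbU (hq1U j))
  -- contradiction in `Q₂`
  let g : Option (Option {j : Fin (m + 1) // j ≠ q0}) → Fin (m + 1) := fun o =>
    match o with
    | none => c a
    | some none => c a + 1
    | some (some j) => c (q2 j)
  have hone : c a ≠ c a + 1 := by
    intro h
    have h1 : (1 : Fin (m + 1)) = 0 := by
      have := h.symm
      rwa [add_eq_left] at this
    have h2 := congrArg Fin.val h1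
    rw [Fin.val_one', Fin.val_zero, Nat.mod_eq_of_lt (by omega)] at h2
    exact absurd h2 (by norm_num)
  have hb2 : ∀ j : {j : Fin (m + 1) // j ≠ q0}, c a + 1 ≠ c (q2 j) := by
    intro j
    rw [← hab]
    exact hbq2 j hbU (hq2U j j.2)
  have hg : Function.Injective g := by
    intro o o' h
    rcases o with _ | _ | j <;> rcases o' with _ | _ | j'
    · rfl
    · exact absurd h hone
    · exact absurd h (haq2 j' haU (hq2U j' j'.2))
    · exact absurd h.symm hone
    · rfl
    · exact absurd h (hb2 j')
    · exact absurd h.symm (haq2 j haU (hq2U j j.2))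
    · exact absurd h.symm (hb2 j)
    · by_contra hne
      have hne' : (j : Fin (m + 1)) ≠ j' := fun h => hne (by rw [Subtype.ext h])
      exact hqq2 j j' hne' (hq2U j j.2) (hq2U j' j'.2) h
  have hc' := Fintype.card_le_of_injective g hg
  have hcs : Fintype.card {j : Fin (m + 1) // j ≠ q0} = m := by
    rw [Fintype.card_subtype_compl]; simp
  simp only [Fintype.card_option, hcs, Fintype.card_fin] at hc'
  omega

lemma alphaDP_Gr_le (m : ℕ) (hm : 1 ≤ m) : alphaDP (Gr m) (m + 1) ≤ 2 * m + 1 := by
  have h1 : alphaDP (Gr m) (m + 1) ≤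
      (permCover (Gr m) (m + 1) (tw m) (tw_symm m)).H.indepNum := by
    apply Nat.sInf_le
    exact ⟨Vt m × Fin (m + 1), inferInstance, permCover (Gr m) (m + 1) (tw m) (tw_symm m),
      permCover_isFold _ _ _ _, rfl⟩
  refine h1.trans ?_
  obtain ⟨s, hs⟩ := (permCover (Gr m) (m + 1) (tw m) (tw_symm m)).H.exists_isNIndepSet_indepNum
  rw [← hs.card_eq]
  exact twisted_bound m hm s hs.isIndepSet

/-- For every integer `k ≥ 3` there is a graph with DP-chromatic number `k` that is not partially
DP-nice; moreover one can take a graph with `2k-1` vertices, for which `(*)` fails at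
`t = k - 1`. -/
theorem result (k : ℕ) (hk : 3 ≤ k) :
    ∃ (V : Type) (_ : Fintype V) (_ : Nonempty V) (G : SimpleGraph V),
      chiDP G = k ∧ ¬ PartiallyDPNice G ∧
      Fintype.card V = 2 * k - 1 ∧ alphaDP G (k - 1) ≤ 2 * k - 3 := by
  obtain ⟨m, rfl⟩ : ∃ m, k = m + 2 := ⟨k - 2, by omega⟩
  have hm : 1 ≤ m := by omega
  have hα := alphaDP_Gr_le m hm
  refine ⟨Vt m, inferInstance, ⟨Sum.inl true⟩, Gr m, chiDP_Gr m, ?_, ?_, ?_⟩
  · intro hnice
    have h := hnice (m + 1) (by omega) (by rw [chiDP_Gr]; omega)
    rw [chiDP_Gr, card_Vt] at h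
    have h2 : (alphaDP (Gr m) (m + 1) : ℚ) ≤ 2 * m + 1 := by exact_mod_cast hα
    have h3 := h.trans h2
    rw [div_le_iff₀ (by positivity)] at h3
    push_cast at h3
    nlinarith
  · rw [card_Vt]; omega
  · have : m + 2 - 1 = m + 1 := by omega
    rw [this]; omega

end Pool.Agent.Results.MP_a5c736_co.NotPartiallyDPNice
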